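import Pool.Agent.H917R2.Tr.Stubs

open scoped ComplexOrder InnerProductSpace Topology
open Filter

noncomputable section

namespace H917R2.Tr

open H759R2.Kad H710R2.DP

theorem p_G_join (h : T_cnt) : G_join := by
  intro H _ _ _ T _ ζ hζ hsum
  have hsq : Sq (fun p : T × ℕ => ζ p.1 p.2) := by
    unfold Sq
    rw [summable_prod_of_nonneg (fun p => by positivity)]
    refine ⟨fun t => hζ t, ?_⟩
    refine hsum.congr (fun t => ?_)
    unfold mu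
    simp
  obtain ⟨χ, hχ, hmu, -⟩ := h H (T × ℕ) (fun p => ζ p.1 p.2) hsq
  refine ⟨χ, hχ, fun x => ?_⟩
  rw [hmu x]
  have hs : Summable (fun p : T × ℕ => ‖x (ζ p.1 p.2)‖ ^ 2) := by
    refine Summable.of_nonneg_of_le (fun p => by positivity) (fun p => ?_) (hsq.mul_left (‖x‖ ^ 2))
    have := x.le_opNorm (ζ p.1 p.2)
    calc ‖x (ζ p.1 p.2)‖ ^ 2 ≤ (‖x‖ * ‖ζ p.1 p.2‖) ^ 2 := by gcongr
      _ = ‖x‖ ^ 2 * ‖ζ p.1 p.2‖ ^ 2 := by ring
  have hin : ∀ t, HasSum (fun k => ‖x (ζ t k)‖ ^ 2) (mu (ζ t) x) := fun t =>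
    (hs.prod_factor t).hasSum
  exact hs.hasSum.prod_fiberwise hin

end H917R2.Tr
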